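import Mathlib

/-! LEAF OD (Mathlib only).  The sum of the reciprocals of the primes, with a constant factor. -/

set_option autoImplicit false

namespace HYO

open Finset

private theorem OD_block (j : ℕ) (hj : 1 ≤ j) :
    ∑ p ∈ (Ioc (2 ^ j) (2 ^ (j + 1))).filter Nat.Prime, 1 / (p : ℝ) ≤ 4 / j := by
  set S := (Ioc (2 ^ j) (2 ^ (j + 1))).filter Nat.Prime with hS
  have hlog2 : 0 < Real.log 2 := Real.log_pos (by norm_num)
  have hj' : (0 : ℝ) < j := by exact_mod_cast hj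
  have h1 : ∏ p ∈ S, p ≤ 4 ^ (2 ^ (j + 1)) := by
    refine le_trans ?_ (primorial_le_four_pow (2 ^ (j + 1)))
    unfold primorial
    refine prod_le_prod_of_subset_of_one_le' (fun p hp => ?_) (fun p hp _ => ?_)
    · obtain ⟨a1, a2⟩ := mem_filter.1 hp
      have := (mem_Ioc.1 a1).2
      exact mem_filter.2 ⟨mem_range.2 (by omega), a2⟩
    · exact (mem_filter.1 hp).2.one_le
  have h2 : (2 ^ j) ^ S.card ≤ ∏ p ∈ S, p := by
    rw [← prod_const]
    refine prod_le_prod' fun p hp => ?_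
    exact (mem_Ioc.1 (mem_filter.1 hp).1).1.le
  have h3 : (((2 : ℝ) ^ j) ^ S.card) ≤ (4 : ℝ) ^ (2 ^ (j + 1)) := by
    exact_mod_cast h2.trans h1
  have h4 : (S.card : ℝ) * (j * Real.log 2) ≤ (2 : ℝ) ^ (j + 1) * (2 * Real.log 2) := by
    have h5 := Real.log_le_log (by positivity) h3
    rw [Real.log_pow, Real.log_pow, Real.log_pow, show (4 : ℝ) = 2 ^ 2 by norm_num, Real.log_pow] at h5
    push_cast at h5
    linarith
  have h6 : (S.card : ℝ) * j ≤ 4 * 2 ^ j := by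
    have h7 : (S.card : ℝ) * j * Real.log 2 ≤ 4 * 2 ^ j * Real.log 2 := by
      have e : (2 : ℝ) ^ (j + 1) * (2 * Real.log 2) = 4 * 2 ^ j * Real.log 2 := by ring
      rw [e] at h4
      linarith
    exact le_of_mul_le_mul_right h7 hlog2
  calc ∑ p ∈ S, 1 / (p : ℝ) ≤ ∑ p ∈ S, 1 / (2 : ℝ) ^ j := by
        refine sum_le_sum fun p hp => ?_
        have h8 : 2 ^ j < p := (mem_Ioc.1 (mem_filter.1 hp).1).1
        have h9 : ((2 : ℝ) ^ j) ≤ p := by exact_mod_cast h8.le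
        exact one_div_le_one_div_of_le (by positivity) h9
    _ = S.card / (2 : ℝ) ^ j := by
        rw [sum_const, nsmul_eq_mul, mul_one_div]
    _ ≤ 4 / j := by
        rw [div_le_div_iff₀ (by positivity) hj']
        exact h6

private theorem OD_pow (J : ℕ) :
    ∑ p ∈ (Icc 1 (2 ^ (J + 1))).filter Nat.Prime, 1 / (p : ℝ) ≤ 1 + 4 * ∑ j ∈ Icc 1 J, 1 / (j : ℝ) := by
  induction J with
  | zero =>
    have e : (Icc 1 (2 ^ (0 + 1))).filter Nat.Prime = {2} := by decide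
    rw [e, sum_singleton]
    norm_num
  | succ J ih =>
    have hsplit : (Icc 1 (2 ^ (J + 1 + 1))).filter Nat.Prime =
        (Icc 1 (2 ^ (J + 1))).filter Nat.Prime ∪ (Ioc (2 ^ (J + 1)) (2 ^ (J + 1 + 1))).filter Nat.Prime := by
      ext p
      simp only [mem_filter, mem_Icc, mem_union, mem_Ioc]
      have h1 : 2 ^ (J + 1) ≤ 2 ^ (J + 1 + 1) := Nat.pow_le_pow_right (by norm_num) (by omega)
      constructor
      · rintro ⟨⟨a, b⟩, c⟩
        rcases Nat.lt_or_ge (2 ^ (J + 1)) p with h | h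
        · exact Or.inr ⟨⟨h, b⟩, c⟩
        · exact Or.inl ⟨⟨a, h⟩, c⟩
      · rintro (⟨⟨a, b⟩, c⟩ | ⟨⟨a, b⟩, c⟩)
        · exact ⟨⟨a, b.trans h1⟩, c⟩
        · exact ⟨⟨by omega, b⟩, c⟩
    have hdisj : Disjoint ((Icc 1 (2 ^ (J + 1))).filter Nat.Prime)
        ((Ioc (2 ^ (J + 1)) (2 ^ (J + 1 + 1))).filter Nat.Prime) := by
      rw [disjoint_left]
      intro p hp hp'
      have a := (mem_Icc.1 (mem_filter.1 hp).1).2
      have b := (mem_Ioc.1 (mem_filter.1 hp').1).1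
      omega
    rw [hsplit, sum_union hdisj]
    have h2 := OD_block (J + 1) (by omega)
    have h3 : ∑ j ∈ Icc 1 (J + 1), 1 / (j : ℝ) = ∑ j ∈ Icc 1 J, 1 / (j : ℝ) + 1 / ((J + 1 : ℕ) : ℝ) :=
      Finset.sum_Icc_succ_top (by omega) _
    rw [h3]
    have h4 : (4 : ℝ) / ((J + 1 : ℕ) : ℝ) = 4 * (1 / ((J + 1 : ℕ) : ℝ)) := by ring
    rw [h4] at h2
    linarith

private theorem OD_harm (J : ℕ) : ∑ j ∈ Icc 1 J, 1 / (j : ℝ) ≤ 1 + Real.log (1 + J) := by
  have h1 := harmonic_le_one_add_log J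
  have h2 : ((harmonic J : ℚ) : ℝ) = ∑ j ∈ Icc 1 J, 1 / (j : ℝ) := by
    rw [harmonic_eq_sum_Icc]
    push_cast
    refine sum_congr rfl fun j _ => ?_
    rw [one_div]
  rw [← h2]
  refine h1.trans ?_
  rcases Nat.eq_zero_or_pos J with h | h
  · subst h
    simp
  · have hJ : (0 : ℝ) < J := by exact_mod_cast h
    have := Real.log_le_log hJ (show (J : ℝ) ≤ 1 + J by linarith)
    linarith

/-- Proof.  Dyadic blocks: for `j ≥ 1` the primes in `(2^j, 2^(j+1)]`: their product is at most `primorial (2^(j+1)) ≤ 4^(2^(j+1))` (`primorial_le_four_pow`), so their number is at most `2^(j+1) log 4 / (j log 2) = 4 · 2^j / j`, and the sum of `1/p` over the block is `≤ 4 / j`.  The number of blocks up to `Y` is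
`≤ log Y / log 2 + 1`; `∑_{j ≤ J} 4 / j ≤ 4 (1 + log J)`.  (Or use the Chebyshev bounds of Mathlib/NumberTheory/Chebyshev.lean, or any Mertens theorem on main, e.g. O1.mertens_two in MP_10e784_agO/C3.lean.) -/
theorem sum_inv_primes : ∃ C : ℝ, 0 ≤ C ∧ ∀ Y : ℕ, 1 ≤ Y →
    ∑ p ∈ (Icc 1 Y).filter Nat.Prime, 1 / (p : ℝ) ≤ C * (1 + Real.log (1 + Real.log Y)) := by
  refine ⟨9, by norm_num, fun Y hY => ?_⟩
  set J : ℕ := Nat.log 2 Y with hJ
  have hlog2 : 0 < Real.log 2 := Real.log_pos (by norm_num)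
  have hlog2' : (1 : ℝ) / 2 ≤ Real.log 2 := by
    have := Real.log_two_gt_d9
    linarith
  have hY2 : Y ≤ 2 ^ (J + 1) := (Nat.lt_pow_succ_log_self (by norm_num) Y).le
  have hYr : (1 : ℝ) ≤ Y := by exact_mod_cast hY
  have hlogY : 0 ≤ Real.log (Y : ℝ) := Real.log_natCast_nonneg Y
  have hJle : (J : ℝ) ≤ 2 * Real.log Y := by
    have h1 : 2 ^ J ≤ Y := Nat.pow_log_le_self 2 (by omega)
    have h2 : ((2 : ℝ) ^ J) ≤ Y := by exact_mod_cast h1
    have h3 := Real.log_le_log (by positivity) h2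
    rw [Real.log_pow] at h3
    nlinarith [Nat.cast_nonneg (α := ℝ) J]
  have h1 : ∑ p ∈ (Icc 1 Y).filter Nat.Prime, 1 / (p : ℝ) ≤
      ∑ p ∈ (Icc 1 (2 ^ (J + 1))).filter Nat.Prime, 1 / (p : ℝ) := by
    refine sum_le_sum_of_subset_of_nonneg ?_ fun p _ _ => by positivity
    refine filter_subset_filter _ (Icc_subset_Icc le_rfl hY2)
  have h2 := OD_pow J
  have h3 := OD_harm J
  have h4 : Real.log (1 + J) ≤ 1 + Real.log (1 + Real.log Y) := by
    have h5 : (1 : ℝ) + J ≤ 2 * (1 + Real.log Y) := by linarith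
    have h6 := Real.log_le_log (by positivity) h5
    rw [Real.log_mul (by norm_num) (by positivity)] at h6
    have h7 : Real.log 2 ≤ 1 := by
      have := Real.log_two_lt_d9
      linarith
    linarith
  have h8 : 0 ≤ Real.log (1 + Real.log Y) := Real.log_nonneg (by linarith)
  nlinarith

end HYO
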