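import Pool.Agent.Lib.MP_10e784_agHO.ODefs

/-! LEAF OE.  Large prime divisors, size of the values. -/

set_option autoImplicit false

namespace HYO

open Finset

/-- the product of the prime factors of `N` which are `> Y` is at most `N` (`Nat.prod_primeFactors_dvd`, `Finset.prod_le_prod_of_subset..`), and at least `Y^card` -/
theorem large_primes (N Y : ℕ) (hN : N ≠ 0) (hY : 1 ≤ Y) :
    (((N.primeFactors).filter fun p => Y < p).card : ℝ) * Real.log Y ≤ Real.log N := by
  have h1 : Y ^ ((N.primeFactors).filter fun p => Y < p).card ≤ N := by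
    calc Y ^ ((N.primeFactors).filter fun p => Y < p).card
        = ∏ _p ∈ (N.primeFactors).filter (fun p => Y < p), Y := by rw [Finset.prod_const]
      _ ≤ ∏ p ∈ (N.primeFactors).filter (fun p => Y < p), p :=
          Finset.prod_le_prod' fun p hp => (Finset.mem_filter.1 hp).2.le
      _ ≤ ∏ p ∈ N.primeFactors, p :=
          Finset.prod_le_prod_of_subset_of_one_le' (Finset.filter_subset _ _)
            fun p hp _ => (Nat.prime_of_mem_primeFactors hp).one_lt.le
      _ ≤ N := Nat.le_of_dvd (Nat.pos_of_ne_zero hN) (Nat.prod_primeFactors_dvd N)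
  have hY0 : (0 : ℝ) < Y := by exact_mod_cast hY
  have h2 : (Y : ℝ) ^ ((N.primeFactors).filter fun p => Y < p).card ≤ N := by exact_mod_cast h1
  have h3 := Real.log_le_log (by positivity) h2
  rwa [Real.log_pow] at h3

/-- sum over the support: `C0 = ∑ |coefficients|` (plus 1), each monomial is at most `(H^K)^(degree)`, degree `≤ totalDegree` -/
theorem value_le {ι : Type} [Fintype ι] [DecidableEq ι] (P : MvPolynomial ι ℤ) (K : ℕ) :
    ∃ C0 : ℕ, 1 ≤ C0 ∧ ∀ H : ℕ, 1 ≤ H → ∀ c : ι → ℤ, (∀ i, |c i| ≤ (H : ℤ) ^ K) →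
      (MvPolynomial.eval c P).natAbs ≤ C0 * H ^ (K * P.totalDegree) := by
  classical
  refine ⟨1 + ∑ d ∈ P.support, (P.coeff d).natAbs, by omega, ?_⟩
  intro H hH c hc
  have hH1 : (1 : ℤ) ≤ (H : ℤ) ^ K := by exact_mod_cast Nat.one_le_pow _ _ hH
  have hmon : ∀ d ∈ P.support, |∏ i, c i ^ d i| ≤ ((H : ℤ) ^ K) ^ P.totalDegree := by
    intro d hd
    rw [Finset.abs_prod]
    calc ∏ i, |c i ^ d i| ≤ ∏ i, ((H : ℤ) ^ K) ^ d i := by
          refine Finset.prod_le_prod (fun i _ => abs_nonneg _) fun i _ => ?_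
          rw [abs_pow]
          exact pow_le_pow_left₀ (abs_nonneg _) (hc i) _
      _ = ((H : ℤ) ^ K) ^ (∑ i, d i) := Finset.prod_pow_eq_pow_sum _ _ _
      _ ≤ ((H : ℤ) ^ K) ^ P.totalDegree := by
          refine pow_le_pow_right₀ hH1 ?_
          have h3 := MvPolynomial.le_totalDegree hd
          rwa [Finsupp.sum_fintype _ _ (fun _ => rfl)] at h3
  have h1 : |MvPolynomial.eval c P| ≤ (∑ d ∈ P.support, |P.coeff d|) * ((H : ℤ) ^ K) ^ P.totalDegree := by
    rw [MvPolynomial.eval_eq', Finset.sum_mul]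
    refine (Finset.abs_sum_le_sum_abs _ _).trans (Finset.sum_le_sum fun d hd => ?_)
    rw [abs_mul]
    exact mul_le_mul_of_nonneg_left (hmon d hd) (abs_nonneg _)
  have h2 : ((MvPolynomial.eval c P).natAbs : ℤ) ≤
      ((1 + ∑ d ∈ P.support, (P.coeff d).natAbs : ℕ) : ℤ) * (H : ℤ) ^ (K * P.totalDegree) := by
    rw [Int.natCast_natAbs]
    refine h1.trans ?_
    rw [← pow_mul]
    refine mul_le_mul_of_nonneg_right ?_ (by positivity)
    push_cast
    linarith
  exact_mod_cast h2

end HYO
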