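import Pool.Agent.Lib.MP_10e784_agHO.OC
import Pool.Agent.Lib.MP_10e784_agHO.OD
import Pool.Agent.Lib.MP_10e784_agHO.OE

/-! LEAF OG (uses OB, OC, OD, OE).  Most values have few prime factors. -/

set_option autoImplicit false

namespace HYO

open Finset

/-- the small prime factors of one counted point -/
private theorem OG_pt {ι : Type} [Fintype ι] [DecidableEq ι] (P : MvPolynomial ι ℤ) {L b C' : ℝ}
    {Y k : ℕ} (N : ℕ) (hN : N ≠ 0) (c : ι → ℤ) (hc : N = (MvPolynomial.eval c P).natAbs)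
    (hL1 : 1 ≤ L) (_hb0 : 0 < b) (hY1 : 1 ≤ Y) (hk1 : 1 ≤ k) (hkL : (k : ℝ) ≤ L ^ b)
    (hlogY : L ^ (1 - b) / 2 ≤ Real.log Y) (hlogN : 2 * Real.log N ≤ C' * L)
    (hC' : 2 * C' ≤ L ^ b) (h2 : 2 ≤ L ^ b) (hom : L ^ (2 * b) < (N.primeFactors.card : ℝ)) :
    (L ^ b / 2) ^ k ≤ ((((Icc 1 Y).filter fun p : ℕ => p.Prime ∧
      (p : ℤ) ∣ MvPolynomial.eval c P).card.choose k : ℕ) : ℝ) := by
  have hL0 : (0 : ℝ) < L := by linarith
  set m : ℕ := ((Icc 1 Y).filter fun p : ℕ => p.Prime ∧ (p : ℤ) ∣ MvPolynomial.eval c P).card with hm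
  have hsplit : N.primeFactors.card ≤ ((N.primeFactors).filter fun p => Y < p).card + m := by
    rw [← Finset.card_filter_add_card_filter_not (s := N.primeFactors) (fun p => Y < p)]
    refine Nat.add_le_add_left (Finset.card_le_card fun p hp => ?_) _
    rw [Finset.mem_filter, not_lt] at hp
    rw [Finset.mem_filter, Finset.mem_Icc]
    have hpp := Nat.prime_of_mem_primeFactors hp.1
    refine ⟨⟨hpp.one_lt.le, hp.2⟩, hpp, ?_⟩
    rw [Int.natCast_dvd, ← hc]
    exact Nat.dvd_of_mem_primeFactors hp.1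
  have hlarge := large_primes N Y hN hY1
  have hpow : L ^ (1 - b) * L ^ b = L := by
    rw [← Real.rpow_add hL0, sub_add_cancel, Real.rpow_one]
  have h1b : 0 < L ^ (1 - b) := Real.rpow_pos_of_pos hL0 _
  have hb' : 0 < L ^ b := Real.rpow_pos_of_pos hL0 _
  have hl2 : (((N.primeFactors).filter fun p => Y < p).card : ℝ) ≤ C' * L ^ b := by
    have e1 : (((N.primeFactors).filter fun p => Y < p).card : ℝ) * (L ^ (1 - b) / 2) ≤ Real.log N :=
      le_trans (mul_le_mul_of_nonneg_left hlogY (Nat.cast_nonneg _)) hlarge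
    have e2 : (((N.primeFactors).filter fun p => Y < p).card : ℝ) * L ^ (1 - b) ≤
        C' * L ^ b * L ^ (1 - b) := by
      have e3 : C' * L ^ b * L ^ (1 - b) = C' * L := by rw [mul_assoc, mul_comm (L ^ b), hpow]
      rw [e3]
      linarith
    exact le_of_mul_le_mul_right e2 h1b
  have hsq : L ^ (2 * b) = L ^ b * L ^ b := by rw [two_mul, Real.rpow_add hL0]
  have hsplit' : (N.primeFactors.card : ℝ) ≤
      (((N.primeFactors).filter fun p => Y < p).card : ℝ) + m := by exact_mod_cast hsplit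
  have hmge : L ^ b * L ^ b / 2 ≤ (m : ℝ) := by
    rw [hsq] at hom
    have e4 : 2 * C' * L ^ b ≤ L ^ b * L ^ b := mul_le_mul_of_nonneg_right hC' hb'.le
    linarith
  have hkm : k ≤ m := by
    have e5 : (k : ℝ) ≤ (m : ℝ) := by
      have e6 : L ^ b ≤ L ^ b * L ^ b / 2 := by
        have := mul_le_mul_of_nonneg_right h2 hb'.le
        linarith
      linarith
    exact_mod_cast e5
  have hk0 : (0 : ℝ) < k := by exact_mod_cast hk1
  have hdiv : L ^ b / 2 ≤ (m : ℝ) / k := by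
    rw [le_div_iff₀ hk0]
    have := mul_le_mul_of_nonneg_left hkL hb'.le
    have e7 : L ^ b / 2 * k = L ^ b * k / 2 := by ring
    rw [e7]
    linarith
  exact le_trans (pow_le_pow_left₀ (by positivity) hdiv k) (choose_ge m k hk1 hkm)

/-- the bound for large `H` -/
private theorem OG_main {ι : Type} [Fintype ι] [DecidableEq ι] (P : MvPolynomial ι ℤ) (hP : Prim P)
    (K : ℕ) {b C1 C' L : ℝ} {C0 : ℕ} (hC0 : 1 ≤ C0) (hb0 : 0 < b) (hb1 : b < 1 / 2) (hC1 : 0 ≤ C1)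
    (hsum : ∀ Y : ℕ, 1 ≤ Y →
      ∑ p ∈ (Icc 1 Y).filter Nat.Prime, 1 / (p : ℝ) ≤ C1 * (1 + Real.log (1 + Real.log Y)))
    (hval : ∀ H : ℕ, 1 ≤ H → ∀ c : ι → ℤ, (∀ i, |c i| ≤ (H : ℤ) ^ K) →
      (MvPolynomial.eval c P).natAbs ≤ C0 * H ^ (K * P.totalDegree))
    (hC' : C' = 2 * (Real.log C0 + K * (P.totalDegree : ℝ)))
    (H : ℕ) (hH : 1 ≤ H) (hL : L = Real.log H) (hL1 : 1 ≤ L)
    (hM : 2 + 2 * C' + 2 * (P.totalDegree : ℝ) * C1 * (2 + 2 / b) * Real.exp 2 ≤ L ^ (b / 2))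
    (h : ι → ℕ) (hh : ∀ i, H ≤ h i ∧ h i ≤ H ^ K) :
    (((bx h).filter fun c => MvPolynomial.eval c P ≠ 0 ∧
        L ^ (2 * b) < ((MvPolynomial.eval c P).natAbs.primeFactors.card : ℝ)).card : ℝ) ≤
        4 ^ Fintype.card ι * (∏ i, (h i : ℝ)) * Real.exp (-L ^ b) := by
  have hL0 : (0 : ℝ) < L := by linarith
  have hD0 : (0 : ℝ) ≤ (P.totalDegree : ℝ) := Nat.cast_nonneg _
  have hlC0 : 0 ≤ Real.log C0 := Real.log_nonneg (by exact_mod_cast hC0)
  have hC'0 : 0 ≤ C' := by rw [hC']; positivity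
  have hX : 0 ≤ 2 * (P.totalDegree : ℝ) * C1 * (2 + 2 / b) * Real.exp 2 := by positivity
  set t : ℝ := L ^ (b / 2) with ht
  have htb : L ^ b = t * t := by
    rw [ht, ← Real.rpow_add hL0, add_halves]
  have ht2 : 2 ≤ t := by linarith
  have hb2 : 2 ≤ L ^ b := by rw [htb]; nlinarith
  have hbC : 2 * C' ≤ L ^ b := by rw [htb]; nlinarith
  have h1b : L ^ b ≤ L ^ (1 - b) := Real.rpow_le_rpow_of_exponent_le hL1 (by linarith)
  have hpow : L ^ (1 - b) * L ^ b = L := by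
    rw [← Real.rpow_add hL0, sub_add_cancel, Real.rpow_one]
  set k : ℕ := ⌊L ^ b⌋₊ with hk
  set Y : ℕ := ⌊Real.exp (L ^ (1 - b))⌋₊ with hYdef
  have hbpos : 0 < L ^ b := by linarith
  have h1bpos : 0 < L ^ (1 - b) := by linarith
  have hkL : (k : ℝ) ≤ L ^ b := Nat.floor_le hbpos.le
  have hk1 : 1 ≤ k := by
    rw [hk, Nat.one_le_floor_iff]
    linarith
  have hkge : L ^ b - 1 ≤ (k : ℝ) := by
    have := Nat.lt_floor_add_one (L ^ b)
    linarith
  have hYle : (Y : ℝ) ≤ Real.exp (L ^ (1 - b)) := Nat.floor_le (Real.exp_pos _).le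
  have hexp2 : (2 : ℝ) ≤ Real.exp (L ^ (1 - b)) := by
    have := Real.add_one_le_exp (L ^ (1 - b))
    linarith
  have hY1 : 1 ≤ Y := by
    rw [hYdef, Nat.one_le_floor_iff]
    linarith
  have hYpos : (0 : ℝ) < Y := by exact_mod_cast hY1
  have hYge : Real.exp (L ^ (1 - b)) / 2 ≤ (Y : ℝ) := by
    have := Nat.lt_floor_add_one (Real.exp (L ^ (1 - b)))
    linarith
  have hlogYle : Real.log Y ≤ L ^ (1 - b) := by
    have := Real.log_le_log hYpos hYle
    rwa [Real.log_exp] at this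
  have hlogYge : L ^ (1 - b) / 2 ≤ Real.log Y := by
    have e1 := Real.log_le_log (by positivity) hYge
    rw [Real.log_div (Real.exp_pos _).ne' (by norm_num), Real.log_exp] at e1
    have e2 := Real.log_two_lt_d9
    linarith
  have hLb : L ^ (1 - b) ≤ L := by
    have := Real.rpow_le_rpow_of_exponent_le hL1 (show 1 - b ≤ 1 by linarith)
    rwa [Real.rpow_one] at this
  have hHpos : (0 : ℝ) < H := by exact_mod_cast hH
  have hYk : ∀ i, Y ^ k ≤ h i := by
    intro i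
    refine le_trans ?_ (hh i).1
    have e1 : ((Y : ℝ)) ^ k ≤ (H : ℝ) := by
      calc (Y : ℝ) ^ k ≤ (Real.exp (L ^ (1 - b))) ^ k := pow_le_pow_left₀ hYpos.le hYle k
        _ = Real.exp ((k : ℝ) * L ^ (1 - b)) := by rw [← Real.exp_nat_mul]
        _ ≤ Real.exp L := by
            refine Real.exp_le_exp.2 ?_
            have := mul_le_mul_of_nonneg_right hkL h1bpos.le
            rw [mul_comm (L ^ b), hpow] at this
            exact this
        _ = (H : ℝ) := by rw [hL, Real.exp_log hHpos]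
    exact_mod_cast e1
  have hmom := moment P hP h Y k hY1 hYk
  set S := (bx h).filter fun c => MvPolynomial.eval c P ≠ 0 ∧
        L ^ (2 * b) < ((MvPolynomial.eval c P).natAbs.primeFactors.card : ℝ) with hS
  have hlow : (S.card : ℝ) * (L ^ b / 2) ^ k ≤
      ∑ c ∈ bx h, ((((Icc 1 Y).filter fun p : ℕ => p.Prime ∧
        (p : ℤ) ∣ MvPolynomial.eval c P).card.choose k : ℕ) : ℝ) := by
    have e1 : (S.card : ℝ) * (L ^ b / 2) ^ k = ∑ _c ∈ S, (L ^ b / 2) ^ k := by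
      rw [Finset.sum_const, nsmul_eq_mul]
    rw [e1]
    refine le_trans (Finset.sum_le_sum fun c hc => ?_) (Finset.sum_le_sum_of_subset_of_nonneg
      (Finset.filter_subset _ _) fun c _ _ => Nat.cast_nonneg _)
    rw [hS, Finset.mem_filter] at hc
    obtain ⟨hcb, hc0, hcom⟩ := hc
    refine OG_pt P (MvPolynomial.eval c P).natAbs (by simpa using hc0) c rfl hL1 hb0 hY1 hk1 hkL
      hlogYge ?_ hbC hb2 hcom
    have hcle : ∀ i, |c i| ≤ (H : ℤ) ^ K := by
      intro i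
      have e2 := Fintype.mem_piFinset.1 hcb i
      rw [Finset.mem_Icc] at e2
      have e3 : ((h i : ℕ) : ℤ) ≤ (H : ℤ) ^ K := by exact_mod_cast (hh i).2
      exact le_trans (abs_le.2 e2) e3
    have hN := hval H hH c hcle
    have hNpos : (0 : ℝ) < ((MvPolynomial.eval c P).natAbs : ℝ) := by
      have : 0 < (MvPolynomial.eval c P).natAbs := by
        rw [Int.natAbs_pos]
        exact hc0
      exact_mod_cast this
    have hN' : ((MvPolynomial.eval c P).natAbs : ℝ) ≤ (C0 : ℝ) * (H : ℝ) ^ (K * P.totalDegree) := by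
      exact_mod_cast hN
    have hC0pos : (0 : ℝ) < (C0 : ℝ) := by exact_mod_cast hC0
    have e4 := Real.log_le_log hNpos hN'
    rw [Real.log_mul hC0pos.ne' (by positivity), Real.log_pow, ← hL, Nat.cast_mul] at e4
    have e5 : Real.log C0 ≤ Real.log C0 * L := le_mul_of_one_le_right hlC0 hL1
    rw [hC']
    nlinarith
  have hsumY := hsum Y hY1
  have hs0 : 0 ≤ ∑ p ∈ (Icc 1 Y).filter Nat.Prime, 1 / (p : ℝ) :=
    Finset.sum_nonneg fun p _ => by positivity
  have hlogL : Real.log L ≤ (2 / b) * t := by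
    have := Real.log_le_rpow_div hL0.le (show 0 < b / 2 by positivity)
    rw [← ht] at this
    refine le_trans this (le_of_eq ?_)
    field_simp
  have hlog1 : 1 + Real.log (1 + Real.log Y) ≤ (2 + 2 / b) * t := by
    have hlY0 : 0 ≤ Real.log Y := by linarith
    have e1 : Real.log (1 + Real.log Y) ≤ Real.log (2 * L) :=
      Real.log_le_log (by linarith) (by linarith)
    rw [Real.log_mul (by norm_num) hL0.ne'] at e1
    have e2 := Real.log_two_lt_d9
    have e3 : (2 + 2 / b) * t = 2 * t + 2 / b * t := by ring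
    rw [e3]
    linarith
  have hDS : (P.totalDegree : ℝ) * ∑ p ∈ (Icc 1 Y).filter Nat.Prime, 1 / (p : ℝ) ≤
      (L ^ b / 2) * Real.exp (-2) := by
    have e1 : (P.totalDegree : ℝ) * ∑ p ∈ (Icc 1 Y).filter Nat.Prime, 1 / (p : ℝ) ≤
        (P.totalDegree : ℝ) * (C1 * ((2 + 2 / b) * t)) :=
      mul_le_mul_of_nonneg_left (le_trans hsumY (mul_le_mul_of_nonneg_left hlog1 hC1)) hD0
    have e2 : 2 * (P.totalDegree : ℝ) * C1 * (2 + 2 / b) * Real.exp 2 ≤ t := by linarith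
    have e3 : Real.exp 2 * Real.exp (-2) = 1 := by rw [← Real.exp_add]; simp
    have e4 := mul_le_mul_of_nonneg_right e2 (Real.exp_pos (-2)).le
    have e5 : 2 * (P.totalDegree : ℝ) * C1 * (2 + 2 / b) * Real.exp 2 * Real.exp (-2) =
        2 * (P.totalDegree : ℝ) * C1 * (2 + 2 / b) := by
      rw [mul_assoc _ (Real.exp 2), e3, mul_one]
    rw [e5] at e4
    have e6 := mul_le_mul_of_nonneg_right e4 (show 0 ≤ t by linarith)
    refine le_trans e1 ?_
    rw [htb]
    have e7 : (P.totalDegree : ℝ) * (C1 * ((2 + 2 / b) * t)) =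
        2 * (P.totalDegree : ℝ) * C1 * (2 + 2 / b) * t / 2 := by ring
    rw [e7]
    have e8 : t * t / 2 * Real.exp (-2) = t * Real.exp (-2) * t / 2 := by ring
    rw [e8]
    linarith
  have hpw : ((P.totalDegree : ℝ) * ∑ p ∈ (Icc 1 Y).filter Nat.Prime, 1 / (p : ℝ)) ^ k ≤
      (L ^ b / 2) ^ k * Real.exp (-L ^ b) := by
    refine le_trans (pow_le_pow_left₀ (mul_nonneg hD0 hs0) hDS k) ?_
    rw [mul_pow, ← Real.exp_nat_mul]
    refine mul_le_mul_of_nonneg_left (Real.exp_le_exp.2 ?_) (by positivity)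
    linarith
  have hprod : ∏ i, (4 * (h i : ℝ)) = 4 ^ Fintype.card ι * ∏ i, (h i : ℝ) := by
    rw [Finset.prod_mul_distrib, Finset.prod_const, Finset.card_univ]
  have hpr0 : (0 : ℝ) ≤ 4 ^ Fintype.card ι * ∏ i, (h i : ℝ) :=
    mul_nonneg (by positivity) (Finset.prod_nonneg fun i _ => Nat.cast_nonneg _)
  have hfin := le_trans hlow (le_trans hmom
    (mul_le_mul_of_nonneg_left hpw (by rw [hprod]; exact hpr0)))
  have hpos : 0 < (L ^ b / 2) ^ k := by positivity
  rw [hprod] at hfin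
  refine le_of_mul_le_mul_right (le_trans hfin (le_of_eq ?_)) hpos
  ring

/-- Proof.  `L = log H`, `k = ⌊L^(a/2)⌋`, `Y = ⌊exp (L^(1 - a/2))⌋`, `D = P.totalDegree`.  For `L ≥ L0(P, K, a)`: `1 ≤ k`, `Y^k ≤ exp L = H ≤ h i`.  Let `c` be counted: `N = natAbs (eval c P) ≠ 0`, `ω(N) > L^a`.  By `large_primes`, `value_le` the number of its prime factors `> Y` is at most
`(log C0 + K D L) / log Y ≤ C' L^(a/2)` (`log Y ≥ L^(1-a/2) / 2`), so at least `w := L^a - C' L^(a/2) ≥ L^a / 2 ≥ k` are `≤ Y`; `choose_ge` (monotone in `n`): the binomial coefficient of `moment` is `≥ (w / k)^k ≥ (L^(a/2) / 2)^k`.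
`moment` + `sum_inv_primes` (`log Y ≤ L`): `#bad (L^(a/2) / 2)^k ≤ 4^n ∏ h_i (D C (1 + log (1 + L)))^k`, so `#bad ≤ 4^n ∏ h_i (2 D C (1 + log (1 + L)) / L^(a/2))^k ≤ 4^n ∏ h_i exp(-2 k) ≤ 4^n ∏ h_i exp(-L^(a/2))` for `L ≥ L0` (`2 k ≥ L^(a/2)`).
For `L < L0`: the whole box has `∏ (2 h_i + 1) ≤ 3^n ∏ h_i` points: `C ≥ 3^n exp(L0^(a/2))`. -/
theorem few_primes {ι : Type} [Fintype ι] [DecidableEq ι] (P : MvPolynomial ι ℤ) (hP : Prim P) (K : ℕ) (a : ℝ)
    (ha : 0 < a) (ha1 : a < 1) : ∃ C : ℝ, ∀ H : ℕ, 1 ≤ H → ∀ h : ι → ℕ, (∀ i, H ≤ h i ∧ h i ≤ H ^ K) →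
      (((bx h).filter fun c => MvPolynomial.eval c P ≠ 0 ∧
        (Real.log H) ^ a < ((MvPolynomial.eval c P).natAbs.primeFactors.card : ℝ)).card : ℝ) ≤
        C * (∏ i, (h i : ℝ)) * Real.exp (-(Real.log H) ^ (a / 2)) := by
  classical
  obtain ⟨C0, hC0, hval⟩ := value_le P K
  obtain ⟨C1, hC1, hsum⟩ := sum_inv_primes
  have hb0 : 0 < a / 2 := by positivity
  have hb1 : a / 2 < 1 / 2 := by linarith
  have hev : ∀ᶠ L : ℝ in Filter.atTop, 1 ≤ L ∧
      2 + 2 * (2 * (Real.log C0 + K * (P.totalDegree : ℝ))) +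
        2 * (P.totalDegree : ℝ) * C1 * (2 + 2 / (a / 2)) * Real.exp 2 ≤ L ^ (a / 2 / 2) :=
    (Filter.eventually_ge_atTop 1).and
      ((tendsto_rpow_atTop (show 0 < a / 2 / 2 by positivity)).eventually_ge_atTop _)
  obtain ⟨L0, hL0⟩ := Filter.eventually_atTop.1 hev
  refine ⟨4 ^ Fintype.card ι + 3 ^ Fintype.card ι * Real.exp ((max L0 1) ^ (a / 2)),
    fun H hH h hh => ?_⟩
  have hLnn : 0 ≤ Real.log H := Real.log_nonneg (by exact_mod_cast hH)
  have hpr0 : (0 : ℝ) ≤ ∏ i, (h i : ℝ) := Finset.prod_nonneg fun i _ => Nat.cast_nonneg _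
  rcases le_or_gt L0 (Real.log H) with hc | hc
  · obtain ⟨h1, h2⟩ := hL0 _ hc
    have h3 := OG_main P hP K hC0 hb0 hb1 hC1 hsum hval rfl H hH rfl h1 h2 h hh
    rw [show 2 * (a / 2) = a by ring] at h3
    refine le_trans h3 ?_
    refine mul_le_mul_of_nonneg_right (mul_le_mul_of_nonneg_right ?_ hpr0) (Real.exp_pos _).le
    have : (0 : ℝ) ≤ 3 ^ Fintype.card ι * Real.exp ((max L0 1) ^ (a / 2)) := by positivity
    linarith
  · have hcard : (((bx h).filter fun c => MvPolynomial.eval c P ≠ 0 ∧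
        (Real.log H) ^ a < ((MvPolynomial.eval c P).natAbs.primeFactors.card : ℝ)).card : ℝ) ≤
        3 ^ Fintype.card ι * ∏ i, (h i : ℝ) := by
      have e1 : ((bx h).filter fun c => MvPolynomial.eval c P ≠ 0 ∧
        (Real.log H) ^ a < ((MvPolynomial.eval c P).natAbs.primeFactors.card : ℝ)).card ≤
          ∏ i, (3 * h i) := by
        refine le_trans (Finset.card_filter_le _ _) ?_
        rw [Fintype.card_piFinset]
        refine Finset.prod_le_prod' fun i _ => ?_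
        rw [Int.card_Icc]
        have := (hh i).1
        omega
      have e2 : ((∏ i, (3 * h i) : ℕ) : ℝ) = 3 ^ Fintype.card ι * ∏ i, (h i : ℝ) := by
        push_cast
        rw [Finset.prod_mul_distrib, Finset.prod_const, Finset.card_univ]
      rw [← e2]
      exact_mod_cast e1
    refine le_trans hcard ?_
    have e3 : (Real.log H) ^ (a / 2) ≤ (max L0 1) ^ (a / 2) :=
      Real.rpow_le_rpow hLnn (le_trans hc.le (le_max_left _ _)) hb0.le
    have e4 : 1 ≤ Real.exp ((max L0 1) ^ (a / 2)) * Real.exp (-(Real.log H) ^ (a / 2)) := by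
      rw [← Real.exp_add]
      refine Real.one_le_exp ?_
      linarith
    have e5 : (4 ^ Fintype.card ι + 3 ^ Fintype.card ι * Real.exp ((max L0 1) ^ (a / 2))) *
        (∏ i, (h i : ℝ)) * Real.exp (-(Real.log H) ^ (a / 2)) =
        4 ^ Fintype.card ι * (∏ i, (h i : ℝ)) * Real.exp (-(Real.log H) ^ (a / 2)) +
        3 ^ Fintype.card ι * (∏ i, (h i : ℝ)) *
          (Real.exp ((max L0 1) ^ (a / 2)) * Real.exp (-(Real.log H) ^ (a / 2))) := by ring
    rw [e5]
    have e6 : 0 ≤ 4 ^ Fintype.card ι * (∏ i, (h i : ℝ)) * Real.exp (-(Real.log H) ^ (a / 2)) := by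
      positivity
    have e7 := le_mul_of_one_le_right
      (show (0 : ℝ) ≤ 3 ^ Fintype.card ι * ∏ i, (h i : ℝ) by positivity) e4
    linarith

end HYO
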