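import Pool.Agent.Lib.MP_10e784_agHO.ODefs

/-! LEAF OH.  Few zeros in a box. -/

set_option autoImplicit false

namespace HYO

open Finset

/-- `MvPolynomial.schwartz_zippel_sup_sum` or `schwartz_zippel_sum_degreeOf` over `ℤ` with `S i = Icc (-h i) (h i)` (`2 h_i + 1 ≥ H` elements), transported from `Fin n` to `ι`; `∏ (2 h_i + 1) ≤ 3^n ∏ h_i`. -/
theorem few_zeros {ι : Type} [Fintype ι] [DecidableEq ι] (P : MvPolynomial ι ℤ) (hP : P ≠ 0) :
    ∃ C : ℝ, ∀ H : ℕ, 1 ≤ H → ∀ h : ι → ℕ, (∀ i, H ≤ h i) →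
      (((bx h).filter fun c => MvPolynomial.eval c P = 0).card : ℝ) * H ≤ C * ∏ i, (h i : ℝ) := by
  classical
  set n := Fintype.card ι with hn
  set e : ι ≃ Fin n := Fintype.equivFin ι with he
  set Q : MvPolynomial (Fin n) ℤ := MvPolynomial.rename e P with hQ
  have hQ0 : Q ≠ 0 := by
    intro h0
    apply hP
    apply MvPolynomial.rename_injective e e.injective
    rw [map_zero]
    exact h0
  set D : ℝ := ∑ i, (Q.degreeOf i : ℝ) with hD
  have hD0 : 0 ≤ D := Finset.sum_nonneg fun i _ => Nat.cast_nonneg _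
  refine ⟨D * 3 ^ n, ?_⟩
  intro H hH h hh
  set S : Fin n → Finset ℤ := fun i => Icc (-(h (e.symm i) : ℤ)) (h (e.symm i)) with hS
  have hSc : ∀ i, (S i).card = 2 * h (e.symm i) + 1 := by
    intro i
    rw [hS]
    simp only [Int.card_Icc]
    omega
  set N : ℕ := ((Fintype.piFinset S).filter fun x => MvPolynomial.eval x Q = 0).card with hN
  have h1 : ((bx h).filter fun c => MvPolynomial.eval c P = 0).card ≤ N := by
    refine Finset.card_le_card_of_injOn (fun c => c ∘ e.symm) ?_ ?_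
    · intro c hc
      have hc' := Finset.mem_filter.1 (Finset.mem_coe.1 hc)
      refine Finset.mem_coe.2 (Finset.mem_filter.2 ⟨?_, ?_⟩)
      · rw [Fintype.mem_piFinset]
        intro i
        exact (Fintype.mem_piFinset.1 hc'.1) (e.symm i)
      · rw [hQ, MvPolynomial.eval_rename]
        have h2 : (c ∘ e.symm) ∘ e = c := by
          funext i
          simp
        rw [h2]
        exact hc'.2
    · intro c _ c' _ hcc
      funext i
      have h3 := congrFun hcc (e i)
      simpa using h3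
  have h4 := MvPolynomial.schwartz_zippel_sum_degreeOf hQ0 S
  have h5 : (N : ℝ) / ∏ i, ((S i).card : ℝ) ≤ ∑ i, (Q.degreeOf i : ℝ) / ((S i).card : ℝ) := by
    have h4' := (NNRat.cast_le (K := ℝ)).2 h4
    push_cast at h4'
    exact h4'
  have hH0 : (0 : ℝ) < H := by exact_mod_cast hH
  have hcard : ∀ i, (H : ℝ) ≤ ((S i).card : ℝ) := by
    intro i
    have h6 := hh (e.symm i)
    have h7 : H ≤ (S i).card := by rw [hSc]; omega
    exact_mod_cast h7
  have h8 : ∑ i, (Q.degreeOf i : ℝ) / ((S i).card : ℝ) ≤ D / H := by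
    rw [hD, Finset.sum_div]
    refine Finset.sum_le_sum fun i _ => ?_
    exact div_le_div_of_nonneg_left (Nat.cast_nonneg _) hH0 (hcard i)
  have hprod : 0 < ∏ i, ((S i).card : ℝ) := Finset.prod_pos fun i _ => lt_of_lt_of_le hH0 (hcard i)
  have h9 : (N : ℝ) * H ≤ D * ∏ i, ((S i).card : ℝ) := by
    have h10 := h5.trans h8
    rw [div_le_div_iff₀ hprod hH0] at h10
    exact h10
  have h11 : ∏ i, ((S i).card : ℝ) ≤ 3 ^ n * ∏ i, (h i : ℝ) := by
    have h12 : ∏ i : ι, (h i : ℝ) = ∏ i : Fin n, (h (e.symm i) : ℝ) :=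
      (Equiv.prod_comp e.symm (fun i => (h i : ℝ))).symm
    have h13 : (3 : ℝ) ^ n = ∏ _i : Fin n, (3 : ℝ) := by
      rw [Finset.prod_const, Finset.card_univ, Fintype.card_fin]
    rw [h12, h13, ← Finset.prod_mul_distrib]
    refine Finset.prod_le_prod (fun i _ => Nat.cast_nonneg _) fun i _ => ?_
    have h14 := hh (e.symm i)
    have h15 : (S i).card ≤ 3 * h (e.symm i) := by rw [hSc]; omega
    exact_mod_cast h15
  calc (((bx h).filter fun c => MvPolynomial.eval c P = 0).card : ℝ) * H ≤ (N : ℝ) * H :=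
        mul_le_mul_of_nonneg_right (by exact_mod_cast h1) hH0.le
    _ ≤ D * ∏ i, ((S i).card : ℝ) := h9
    _ ≤ D * (3 ^ n * ∏ i, (h i : ℝ)) := mul_le_mul_of_nonneg_left h11 hD0
    _ = D * 3 ^ n * ∏ i, (h i : ℝ) := by ring

end HYO
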