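import Pool.Agent.Lib.MP_10e784_agHO.ODefs

/-! LEAF OI.  The resultant and common zeros modulo p. -/

set_option autoImplicit false

namespace HYO

open Finset Polynomial

private theorem OI_deg {R : Type} [CommRing R] {n : ℕ} (F : Fin (n + 1) → R) :
    (∑ k : Fin (n + 1), Polynomial.monomial (k : ℕ) (F k)).natDegree ≤ n := by
  refine Polynomial.natDegree_sum_le_of_forall_le _ _ fun k _ => ?_
  exact (Polynomial.natDegree_monomial_le _).trans (by omega)

private theorem OI_lt {R : Type} [CommRing R] {n : ℕ} (hn : 1 ≤ n) (F : Fin (n + 1) → R) (h : F (Fin.last n) = 0) :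
    (∑ k : Fin (n + 1), Polynomial.monomial (k : ℕ) (F k)).natDegree < n := by
  have h1 : (∑ k : Fin (n + 1), Polynomial.monomial (k : ℕ) (F k)).natDegree ≤ n - 1 := by
    refine Polynomial.natDegree_sum_le_of_forall_le _ _ fun k _ => ?_
    by_cases hk : k = Fin.last n
    · rw [hk, h, Polynomial.monomial_zero_right, Polynomial.natDegree_zero]
      exact Nat.zero_le _
    · have h2 : (k : ℕ) < n := by
        have h3 := Fin.val_ne_of_ne hk
        rw [Fin.val_last] at h3
        omega
      exact (Polynomial.natDegree_monomial_le _).trans (by omega)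
  omega

private theorem OI_last {k : Type} [Field k] {n : ℕ} {F : Fin (n + 1) → k} {x : k} (hx : x ≠ 0)
    (h : fm F x 0 = 0) : F (Fin.last n) = 0 := by
  unfold fm at h
  rw [Fin.sum_univ_castSucc, Finset.sum_eq_zero (fun i _ => by
    rw [zero_pow (by
      have := i.2
      simp only [Fin.val_castSucc]
      omega), mul_zero]), zero_add, Fin.val_last, Nat.sub_self, pow_zero, mul_one] at h
  exact (mul_eq_zero.1 h).resolve_right (pow_ne_zero _ hx)

private theorem OI_root {k : Type} [Field k] {n : ℕ} (F : Fin (n + 1) → k) {x z : k} (hz : z ≠ 0)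
    (h : fm F x z = 0) : Polynomial.eval (x / z) (∑ k : Fin (n + 1), Polynomial.monomial (k : ℕ) (F k)) = 0 := by
  have h1 : Polynomial.eval (x / z) (∑ k : Fin (n + 1), Polynomial.monomial (k : ℕ) (F k)) * z ^ n = fm F x z := by
    rw [Polynomial.eval_finsetSum, Finset.sum_mul]
    unfold fm
    refine Finset.sum_congr rfl fun i _ => ?_
    rw [Polynomial.eval_monomial, div_pow, mul_assoc, mul_assoc]
    congr 1
    have h2 : z ^ n = z ^ (i : ℕ) * z ^ (n - (i : ℕ)) := by
      rw [← pow_add]
      congr 1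
      have := i.2
      omega
    rw [h2, ← mul_assoc, div_mul_cancel₀ _ (pow_ne_zero _ hz)]
  rw [h] at h1
  exact (mul_eq_zero.1 h1).resolve_right (pow_ne_zero _ hz)

/-- `Polynomial.resultant_map_map`, `Polynomial.map_sum`, `Polynomial.map_monomial` -/
theorem rs_map {R S : Type} [CommRing R] [CommRing S] (ψ : R →+* S) {m : ℕ} (q : Fin 3 → R) (F : Fin (m + 1) → R) :
    ψ (rs q F) = rs (fun k => ψ (q k)) (fun k => ψ (F k)) := by
  unfold rs
  rw [← Polynomial.resultant_map_map, Polynomial.map_sum, Polynomial.map_sum]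
  have hm : ∀ (n : ℕ) (c : R), Polynomial.map ψ (Polynomial.monomial n c) = Polynomial.monomial n (ψ c) :=
    fun n c => Polynomial.map_monomial ψ
  congr 1
  · exact Finset.sum_congr rfl fun i _ => hm _ _
  · exact Finset.sum_congr rfl fun i _ => hm _ _

/-- `q = x²`, `F = z^m`: the resultant of `X^2` and the constant 1 in degrees `2, m` is `± 1` (`Polynomial.resultant_X_pow_left`, `resultant_C_zero_right` with `resultant_add_right_deg`, ..) -/
theorem rs_one {R : Type} [CommRing R] {m : ℕ} (q : Fin 3 → R) (F : Fin (m + 1) → R) (hq : q = ![0, 0, 1])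
    (hF : ∀ k, F k = if (k : ℕ) = 0 then 1 else 0) : rs q F = 1 ∨ rs q F = -1 := by
  left
  unfold rs
  have h1 : (∑ k : Fin (m + 1), Polynomial.monomial (k : ℕ) (F k)) = 1 := by
    rw [Finset.sum_eq_single (0 : Fin (m + 1))]
    · rw [hF, if_pos (by rfl)]
      rfl
    · intro b _ hb
      have h2 : (b : ℕ) ≠ 0 := fun h => hb (Fin.ext h)
      rw [hF, if_neg h2, Polynomial.monomial_zero_right]
    · intro h
      exact absurd (Finset.mem_univ _) h
  rw [h1, Polynomial.resultant_one_right, hq, Fin.sum_univ_three, Polynomial.coeff_add, Polynomial.coeff_add,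
    Polynomial.coeff_monomial, Polynomial.coeff_monomial, Polynomial.coeff_monomial]
  simp

/-- Proof (field `k = ZMod p`).  `f, g` the two polynomials in one variable, formal degrees `2, m`.  If `z ≠ 0`: both vanish at `x / z` (`fm q x z = z^2 f(x/z)`), and `Polynomial.exists_mul_add_mul_eq_C_resultant` (needs `m ≠ 0 or 2 ≠ 0`: fine) evaluated at `x / z` gives `rs = 0`.
If `z = 0`: `x ≠ 0`, so `q 2 = 0` and the last coefficient of `F` is 0: `natDegree f < 2`, `natDegree g < m` (`1 ≤ m`) and `Polynomial.resultant_eq_zero_of_lt_lt`. -/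
theorem rs_zero {k : Type} [Field k] {m : ℕ} (hm : 1 ≤ m) (q : Fin 3 → k) (F : Fin (m + 1) → k) (x z : k)
    (hxz : x ≠ 0 ∨ z ≠ 0) (hq : fm q x z = 0) (hF : fm F x z = 0) : rs q F = 0 := by
  have hd : (∑ k : Fin 3, Polynomial.monomial (k : ℕ) (q k)).natDegree ≤ 2 := OI_deg q
  have hd' : (∑ k : Fin (m + 1), Polynomial.monomial (k : ℕ) (F k)).natDegree ≤ m := OI_deg F
  unfold rs
  by_cases hz : z = 0
  · have hx : x ≠ 0 := by
      rcases hxz with h | h
      · exact h
      · exact absurd hz h
    rw [hz] at hq hF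
    exact Polynomial.resultant_eq_zero_of_lt_lt _ _ _ _ (OI_lt (by norm_num) q (OI_last hx hq))
      (OI_lt hm F (OI_last hx hF))
  · obtain ⟨a, b, -, -, hab⟩ := Polynomial.exists_mul_add_mul_eq_C_resultant _ _ hd hd' (Or.inl (by norm_num))
    have h1 := congrArg (Polynomial.eval (x / z)) hab
    rw [Polynomial.eval_add, Polynomial.eval_mul, Polynomial.eval_mul, Polynomial.eval_C, OI_root q hz hq,
      OI_root F hz hF, zero_mul, zero_mul, add_zero] at h1
    exact h1.symm

end HYO
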