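import Mathlib

/-! Hyperelliptic curves, block O: most values of a polynomial have few prime factors.  Definitions.  No leaf here. -/

set_option autoImplicit false

namespace HYO

open Finset

/-- the box `|c_i| ≤ h_i` -/
noncomputable abbrev bx {ι : Type} [Fintype ι] [DecidableEq ι] (h : ι → ℕ) : Finset (ι → ℤ) :=
  Fintype.piFinset fun i => Icc (-(h i : ℤ)) (h i)

/-- nonzero modulo every prime -/
def Prim {ι : Type} (P : MvPolynomial ι ℤ) : Prop :=
  ∀ p : ℕ, p.Prime → MvPolynomial.map (Int.castRingHom (ZMod p)) P ≠ 0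

/-- the binary form with coefficients `f k` (of `x^k z^(n-k)`) -/
def fm {R : Type} [CommRing R] {n : ℕ} (f : Fin (n + 1) → R) (x z : R) : R :=
  ∑ k : Fin (n + 1), f k * x ^ (k : ℕ) * z ^ (n - (k : ℕ))

/-- the discriminant of the binary quadratic form with coefficients `q 0, q 1, q 2` -/
def dc {R : Type} [CommRing R] (q : Fin 3 → R) : R := q 1 ^ 2 - 4 * q 0 * q 2

/-- the polar form of the discriminant: `dc (q + q') = dc q + dc q' + 2 pl q q'` -/
def pl {R : Type} [CommRing R] (q q' : Fin 3 → R) : R := q 1 * q' 1 - 2 * q 0 * q' 2 - 2 * q' 0 * q 2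

/-- the resultant of a binary quadratic form and a binary form of degree `m` -/
noncomputable def rs {R : Type} [CommRing R] {m : ℕ} (q : Fin 3 → R) (F : Fin (m + 1) → R) : R :=
  Polynomial.resultant (∑ k : Fin 3, Polynomial.monomial (k : ℕ) (q k))
    (∑ k : Fin (m + 1), Polynomial.monomial (k : ℕ) (F k)) 2 m

end HYO
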