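import Mathlib

/-! LEAF OA (Mathlib only).  Schwartz-Zippel over `ZMod p` for any finite index type. -/

set_option autoImplicit false

namespace HYO

/-- `MvPolynomial.schwartz_zippel_totalDegree` with `S = univ`, transported from `Fin n` to `ι` by `Fintype.equivFin` and `MvPolynomial.rename` (`totalDegree_rename_le`, `MvPolynomial.rename_injective`, `eval_rename`). -/
theorem sz_mod {ι : Type} [Fintype ι] (p : ℕ) [Fact p.Prime] (P : MvPolynomial ι (ZMod p)) (hP : P ≠ 0) :
    (Nat.card {x : ι → ZMod p // MvPolynomial.eval x P = 0} : ℝ) * p ≤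
      (P.totalDegree : ℝ) * (p : ℝ) ^ Fintype.card ι := by
  classical
  have hp : p.Prime := Fact.out
  obtain ⟨e⟩ : Nonempty (ι ≃ Fin (Fintype.card ι)) := ⟨Fintype.equivFin ι⟩
  generalize Fintype.card ι = n at e ⊢
  have hQ : MvPolynomial.rename e P ≠ 0 := by
    intro h0
    apply hP
    apply MvPolynomial.rename_injective (R := ZMod p) e e.injective
    rw [h0, map_zero]
  have h1 := MvPolynomial.schwartz_zippel_totalDegree hQ (Finset.univ : Finset (ZMod p))
  have h2 : (MvPolynomial.rename e P).totalDegree ≤ P.totalDegree :=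
    MvPolynomial.totalDegree_rename_le e P
  have h3 : Nat.card {x : ι → ZMod p // MvPolynomial.eval x P = 0} =
      ((Fintype.piFinset fun _ : Fin n => (Finset.univ : Finset (ZMod p))).filter fun f =>
        MvPolynomial.eval f (MvPolynomial.rename e P) = 0).card := by
    rw [Fintype.piFinset_univ, ← Fintype.card_subtype, ← Nat.card_eq_fintype_card]
    refine Nat.card_congr (Equiv.subtypeEquiv (Equiv.arrowCongr e (Equiv.refl (ZMod p)))
      fun x => ?_)
    rw [MvPolynomial.eval_rename]
    have h5 : (Equiv.arrowCongr e (Equiv.refl (ZMod p))) x ∘ e = x := by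
      funext i
      simp
    rw [h5]
  rw [← h3, Finset.card_univ, ZMod.card] at h1
  have hp0 : (0 : ℝ) < p := by exact_mod_cast hp.pos
  have h4 : ((Nat.card {x : ι → ZMod p // MvPolynomial.eval x P = 0} : ℝ)) / (p : ℝ) ^ n ≤
      ((MvPolynomial.rename e P).totalDegree : ℝ) / p := by
    have h5 := (NNRat.cast_le (K := ℝ)).2 h1
    push_cast at h5
    exact h5
  rw [div_le_div_iff₀ (pow_pos hp0 n) hp0] at h4
  refine h4.trans (mul_le_mul_of_nonneg_right ?_ (pow_nonneg hp0.le n))
  exact_mod_cast h2

end HYO
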