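import Mathlib

/-! LEAF OB (Mathlib only).  Elementary symmetric functions against powers, and a lower bound for binomials. -/

set_option autoImplicit false

namespace HYO

open Finset

/-- Induction on `T` (`Finset.powersetCard_succ_insert`) or on `k`; e.g. for `T = insert x T'`: `e_(k+1)(T) = e_(k+1)(T') + a x e_k(T') ≤ s'^(k+1) + a x s'^k ≤ (s' + a x)^(k+1)`. -/
theorem ek_le {α : Type} [DecidableEq α] (T : Finset α) (a : α → ℝ) (ha : ∀ x ∈ T, 0 ≤ a x) (k : ℕ) :
    ∑ S ∈ T.powersetCard k, ∏ x ∈ S, a x ≤ (∑ x ∈ T, a x) ^ k := by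
  induction T using Finset.induction_on generalizing k with
  | empty =>
    cases k with
    | zero => simp
    | succ k =>
      have h : Finset.powersetCard (k + 1) (∅ : Finset α) = ∅ :=
        Finset.powersetCard_eq_empty.2 (by simp)
      rw [h]
      simp
  | insert x T hx ih =>
    have hT : ∀ y ∈ T, 0 ≤ a y := fun y hy => ha y (Finset.mem_insert_of_mem hy)
    have hax : 0 ≤ a x := ha x (Finset.mem_insert_self x T)
    have hs : 0 ≤ ∑ y ∈ T, a y := Finset.sum_nonneg hT
    cases k with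
    | zero => simp
    | succ k =>
      have hnot : ∀ S ∈ T.powersetCard k, x ∉ S := fun S hS h =>
        hx ((Finset.mem_powersetCard.1 hS).1 h)
      have hdis : Disjoint (T.powersetCard (k + 1)) ((T.powersetCard k).image (insert x)) := by
        rw [Finset.disjoint_left]
        intro S hS hS'
        obtain ⟨S', hS', rfl⟩ := Finset.mem_image.1 hS'
        exact hx ((Finset.mem_powersetCard.1 hS).1 (Finset.mem_insert_self x S'))
      have hinj : Set.InjOn (insert x) ((T.powersetCard k : Finset (Finset α)) : Set (Finset α)) := by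
        intro S hS S' hS' h
        have h1 := hnot S hS
        have h2 := hnot S' hS'
        have h3 : insert x S = insert x S' := h
        rw [← Finset.erase_insert h1, ← Finset.erase_insert h2, h3]
      rw [Finset.powersetCard_succ_insert hx, Finset.sum_union hdis, Finset.sum_image hinj,
        Finset.sum_insert hx]
      have e1 : ∑ S ∈ T.powersetCard k, ∏ y ∈ insert x S, a y =
          a x * ∑ S ∈ T.powersetCard k, ∏ y ∈ S, a y := by
        rw [Finset.mul_sum]
        refine Finset.sum_congr rfl fun S hS => ?_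
        rw [Finset.prod_insert (hnot S hS)]
      rw [e1]
      have h1 := ih hT (k + 1)
      have h2 := mul_le_mul_of_nonneg_left (ih hT k) hax
      have h3 : (∑ y ∈ T, a y) ^ k ≤ (a x + ∑ y ∈ T, a y) ^ k :=
        pow_le_pow_left₀ hs (by linarith) k
      have h4 := mul_le_mul_of_nonneg_left h3 hax
      have h5 := mul_le_mul_of_nonneg_left h3 hs
      have h6 : (∑ y ∈ T, a y) ^ (k + 1) = (∑ y ∈ T, a y) * (∑ y ∈ T, a y) ^ k := by ring
      have h7 : (a x + ∑ y ∈ T, a y) ^ (k + 1) =
          a x * (a x + ∑ y ∈ T, a y) ^ k + (∑ y ∈ T, a y) * (a x + ∑ y ∈ T, a y) ^ k := by ring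
      rw [h7]
      linarith

/-- the number of `k`-subsets of the elements with property `A` is the sum of the products of the indicators -/
theorem choose_eq {α : Type} [DecidableEq α] (T : Finset α) (A : α → Prop) [DecidablePred A] (k : ℕ) :
    (((T.filter A).card.choose k : ℕ) : ℝ) = ∑ S ∈ T.powersetCard k, ∏ x ∈ S, if A x then (1 : ℝ) else 0 := by
  have h1 : ∀ S ∈ T.powersetCard k, (∏ x ∈ S, if A x then (1 : ℝ) else 0) =
      if S ∈ (T.filter A).powersetCard k then (1 : ℝ) else 0 := by
    intro S hS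
    obtain ⟨h2, h3⟩ := Finset.mem_powersetCard.1 hS
    by_cases h : ∀ x ∈ S, A x
    · rw [if_pos (Finset.mem_powersetCard.2 ⟨fun x hx => Finset.mem_filter.2 ⟨h2 hx, h x hx⟩, h3⟩)]
      exact Finset.prod_eq_one fun x hx => if_pos (h x hx)
    · rw [if_neg (fun h4 => h fun x hx => (Finset.mem_filter.1 ((Finset.mem_powersetCard.1 h4).1 hx)).2)]
      push Not at h
      obtain ⟨x, hx, hA⟩ := h
      exact Finset.prod_eq_zero hx (if_neg hA)
  rw [Finset.sum_congr rfl h1, Finset.sum_ite_mem, Finset.sum_const, nsmul_eq_mul, mul_one,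
    Finset.inter_eq_right.2 (Finset.powersetCard_mono (Finset.filter_subset A T)),
    Finset.card_powersetCard]

/-- `(n / k)^k ≤ choose n k` for `1 ≤ k ≤ n` (product of `(n - i)/(k - i) ≥ n / k`) -/
theorem choose_ge (n k : ℕ) (hk : 1 ≤ k) (hkn : k ≤ n) : ((n : ℝ) / k) ^ k ≤ (n.choose k : ℝ) := by
  induction k, hk using Nat.le_induction generalizing n with
  | base => simp
  | succ m hm ih =>
    obtain ⟨N, rfl⟩ : ∃ N, n = N + 1 := ⟨n - 1, by omega⟩
    have hmN : m ≤ N := by omega
    have h1 := ih N hmN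
    have h2 : ((N + 1 : ℕ) : ℝ) * (N.choose m : ℝ) = ((N + 1).choose (m + 1) : ℝ) * ((m + 1 : ℕ) : ℝ) := by
      exact_mod_cast Nat.add_one_mul_choose_eq N m
    have hm0 : (0 : ℝ) < m := by exact_mod_cast hm
    have hm1 : (0 : ℝ) < ((m + 1 : ℕ) : ℝ) := by positivity
    have hmN' : (m : ℝ) ≤ N := by exact_mod_cast hmN
    have h3 : ((N + 1 : ℕ) : ℝ) / ((m + 1 : ℕ) : ℝ) ≤ (N : ℝ) / m := by
      rw [div_le_div_iff₀ hm1 hm0]
      push_cast
      nlinarith
    have h4 : (((N + 1 : ℕ) : ℝ) / ((m + 1 : ℕ) : ℝ)) ^ m ≤ ((N : ℝ) / m) ^ m :=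
      pow_le_pow_left₀ (by positivity) h3 m
    have h5 : ((N + 1).choose (m + 1) : ℝ) =
        (((N + 1 : ℕ) : ℝ) / ((m + 1 : ℕ) : ℝ)) * (N.choose m : ℝ) := by
      rw [div_mul_eq_mul_div, h2, mul_div_assoc, div_self hm1.ne', mul_one]
    rw [h5, pow_succ, mul_comm]
    exact mul_le_mul_of_nonneg_left (h4.trans h1) (by positivity)

end HYO
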