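import Pool.Agent.Lib.MP_10e784_agHO.ODefs
import Pool.Agent.Lib.MP_10e784_agHO.OA
import Pool.Agent.Lib.MP_10e784_agHO.OB
import Pool.Agent.Lib.MP_10e784_agBS.S3

/-! LEAF OC (uses OA, OB and MWS.box_crt, which is proved on main).  The `k`-th factorial moment of the number of small prime divisors. -/

set_option autoImplicit false

namespace HYO

open Finset

/-- Proof.  `choose_eq` with `T` = the primes up to `Y`, exchange the sums; for a fixed `k`-subset `S` of `T`: `∏ p ∈ S, p ≤ Y^k ≤ h i`, and `MWS.box_crt S .. h .. f .. g` with `f p b = if eval b (map P) = 0 then 1 else 0` (for `NeZero p`; define `f p b` by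
`if p.Prime ∧ MvPolynomial.eval b (MvPolynomial.map (Int.castRingHom (ZMod p)) P) = 0 then 1 else 0`) and `g p = D / p`, `D = P.totalDegree` (`sz_mod`; `MvPolynomial.totalDegree_map_le`); `(p : ℤ) ∣ eval c P` iff the evaluation in `ZMod p` vanishes (`ZMod.intCast_zmod_eq_zero_iff_dvd`, `MvPolynomial.eval₂_hom`/`map_eval`).
So the sum over the box of the product is at most `∏ 4 h_i * ∏ p ∈ S, D / p`.  Sum over `S` by `ek_le` (T, a p = D / p). -/
theorem moment {ι : Type} [Fintype ι] [DecidableEq ι] (P : MvPolynomial ι ℤ) (hP : Prim P) (h : ι → ℕ) (Y k : ℕ)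
    (hY1 : 1 ≤ Y) (hY : ∀ i, Y ^ k ≤ h i) :
    ∑ c ∈ bx h, ((((Icc 1 Y).filter fun p : ℕ => p.Prime ∧ (p : ℤ) ∣ MvPolynomial.eval c P).card.choose k : ℕ) : ℝ) ≤
      (∏ i, (4 * (h i : ℝ))) * ((P.totalDegree : ℝ) * ∑ p ∈ (Icc 1 Y).filter Nat.Prime, 1 / (p : ℝ)) ^ k := by
  classical
  have hA : ∀ c : ι → ℤ, ((((Icc 1 Y).filter fun p : ℕ => p.Prime ∧ (p : ℤ) ∣ MvPolynomial.eval c P).card.choose k : ℕ) : ℝ) =
      ∑ S ∈ ((Icc 1 Y).filter Nat.Prime).powersetCard k,
        ∏ p ∈ S, if (p : ℤ) ∣ MvPolynomial.eval c P then (1 : ℝ) else 0 := by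
    intro c
    rw [← Finset.filter_filter]
    exact choose_eq ((Icc 1 Y).filter Nat.Prime) (fun p => (p : ℤ) ∣ MvPolynomial.eval c P) k
  rw [Finset.sum_congr rfl fun c _ => hA c, Finset.sum_comm]
  have hev : ∀ (p : ℕ) (c : ι → ℤ), MvPolynomial.eval (fun i => ((c i : ℤ) : ZMod p))
      (MvPolynomial.map (Int.castRingHom (ZMod p)) P) = ((MvPolynomial.eval c P : ℤ) : ZMod p) := by
    intro p c
    rw [MvPolynomial.eval_map]
    exact (MvPolynomial.eval₂_comp_left (Int.castRingHom (ZMod p)) (RingHom.id ℤ) c P).symm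
  have hS : ∀ S ∈ ((Icc 1 Y).filter Nat.Prime).powersetCard k,
      ∑ c ∈ bx h, ∏ p ∈ S, (if (p : ℤ) ∣ MvPolynomial.eval c P then (1 : ℝ) else 0) ≤
        (∏ i, (4 * (h i : ℝ))) * ∏ p ∈ S, (P.totalDegree : ℝ) / (p : ℝ) := by
    intro S hS
    rw [Finset.mem_powersetCard] at hS
    have hpr : ∀ p ∈ S, p.Prime := fun p hp => (Finset.mem_filter.1 (hS.1 hp)).2
    have hle : ∀ p ∈ S, p ≤ Y := fun p hp => (Finset.mem_Icc.1 (Finset.mem_filter.1 (hS.1 hp)).1).2
    have hq : ∀ i, ∏ p ∈ S, p ≤ h i := by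
      intro i
      refine le_trans ?_ (hY i)
      rw [← hS.2]
      exact Finset.prod_le_pow_card S _ Y hle
    have h1 := MWS.box_crt S hpr h hq
      (fun p b => if p.Prime ∧ MvPolynomial.eval b (MvPolynomial.map (Int.castRingHom (ZMod p)) P) = 0 then 1 else 0)
      (fun p b => by
        split_ifs
        · exact zero_le_one
        · exact le_refl _)
      (fun p => (P.totalDegree : ℝ) / (p : ℝ)) (fun p hp _ => by
        have hpp := hpr p hp
        have : Fact p.Prime := ⟨hpp⟩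
        have hp0 : (0 : ℝ) < p := by exact_mod_cast hpp.pos
        have h2 := sz_mod p (MvPolynomial.map (Int.castRingHom (ZMod p)) P) (hP p hpp)
        have h3 : ∑ b : ι → ZMod p, (if p.Prime ∧ MvPolynomial.eval b (MvPolynomial.map (Int.castRingHom (ZMod p)) P) = 0
            then (1 : ℝ) else 0) =
            (Nat.card {x : ι → ZMod p // MvPolynomial.eval x (MvPolynomial.map (Int.castRingHom (ZMod p)) P) = 0} : ℝ) := by
          rw [Finset.sum_boole, Nat.card_eq_fintype_card, Fintype.card_subtype]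
          congr 2
          refine Finset.filter_congr fun b _ => ?_
          exact ⟨fun h => h.2, fun h => ⟨hpp, h⟩⟩
        have h4 : ((MvPolynomial.map (Int.castRingHom (ZMod p)) P).totalDegree : ℝ) ≤ (P.totalDegree : ℝ) := by
          exact_mod_cast Finset.sup_mono (MvPolynomial.support_map_subset (Int.castRingHom (ZMod p)) P)
        have h5 : (0 : ℝ) ≤ (p : ℝ) ^ Fintype.card ι := by positivity
        rw [h3, div_mul_eq_mul_div, le_div_iff₀ hp0]
        exact h2.trans (mul_le_mul_of_nonneg_right h4 h5))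
    refine le_trans (le_of_eq ?_) h1
    refine Finset.sum_congr rfl fun c _ => Finset.prod_congr rfl fun p hp => ?_
    rw [hev]
    by_cases hd : (p : ℤ) ∣ MvPolynomial.eval c P
    · rw [if_pos hd, if_pos ⟨hpr p hp, (ZMod.intCast_zmod_eq_zero_iff_dvd _ _).2 hd⟩]
    · rw [if_neg hd, if_neg fun h => hd ((ZMod.intCast_zmod_eq_zero_iff_dvd _ _).1 h.2)]
  refine (Finset.sum_le_sum hS).trans ?_
  rw [← Finset.mul_sum]
  refine mul_le_mul_of_nonneg_left ?_ (Finset.prod_nonneg fun i _ => by positivity)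
  have h6 : (P.totalDegree : ℝ) * ∑ p ∈ (Icc 1 Y).filter Nat.Prime, 1 / (p : ℝ) =
      ∑ p ∈ (Icc 1 Y).filter Nat.Prime, (P.totalDegree : ℝ) / (p : ℝ) := by
    rw [Finset.mul_sum]
    exact Finset.sum_congr rfl fun p _ => by rw [mul_one_div]
  rw [h6]
  exact ek_le ((Icc 1 Y).filter Nat.Prime) (fun p => (P.totalDegree : ℝ) / (p : ℝ)) (fun p _ => by positivity) k

end HYO
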